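import Pool.Agent.KS6_49.BN.Bnr
import Pool.Agent.KS6_49.BN.BnrFamily

/-!
# Highly connected graphs with `α_bnr` about `3/2` times `Γ_b`

For all `k` and `N` and every `ε > 0` there is a `k`-connected graph `G` with
`α_bnr(G) ≥ Γ_b(G) + N` and `α_bnr(G) > (3/2 - ε) Γ_b(G)`. The definitions of `Gammab` and
`alphaBnr` are in `Pool.Agent.KS6_49.BN.Bnr`.
-/

namespace Pool.Agent.Results.MP_20154b_co.KConnectedRatio

open SimpleGraph Pool.Agent.KS6_49.BN

/-- `G` is `k`-connected: it has more than `k` vertices and it stays connected whenever fewer than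
`k` vertices are deleted. -/
def KConnected {V : Type} [Fintype V] (k : ℕ) (G : SimpleGraph V) : Prop :=
  k < Fintype.card V ∧ ∀ S : Finset V, S.card < k → (G.induce {v | v ∉ S}).Connected

theorem blow_kconn {V : Type} [Fintype V] {G : SimpleGraph V} (hc : G.Connected) (t : ℕ)
    (S : Finset (V × Fin t)) (hS : S.card < t) :
    ((blow G t).induce {v | v ∉ S}).Connected := by
  classical
  have hfree : ∀ v : V, ∃ i : Fin t, (v, i) ∈ {v | v ∉ S} := by
    intro v
    by_contra hcon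
    push Not at hcon
    have h1 : Finset.univ.image (fun i : Fin t => (v, i)) ⊆ S := by
      intro x hx
      obtain ⟨i, _, rfl⟩ := Finset.mem_image.1 hx
      have := hcon i
      simpa using this
    have h2 := Finset.card_le_card h1
    rw [Finset.card_image_of_injective _ (fun a b hab => (Prod.mk.inj hab).2),
      Finset.card_univ, Fintype.card_fin] at h2
    omega
  have key : ∀ {u v : V} (q : G.Walk u v) (i j : Fin t) (hi : (u, i) ∈ {v | v ∉ S})
      (hj : (v, j) ∈ {v | v ∉ S}),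
      ((blow G t).induce {v | v ∉ S}).Reachable ⟨(u, i), hi⟩ ⟨(v, j), hj⟩ := by
    intro u v q
    induction q with
    | nil =>
      rename_i a
      intro i j hi hj
      by_cases hij : i = j
      · subst hij; exact Reachable.refl _
      · have hadj : ((blow G t).induce {v | v ∉ S}).Adj ⟨(a, i), hi⟩ ⟨(a, j), hj⟩ :=
          Or.inr ⟨rfl, hij⟩
        exact hadj.reachable
    | cons h q ih =>
      rename_i a b c
      intro i j hi hj
      obtain ⟨i', hmem⟩ := hfree b
      have hadj : ((blow G t).induce {v | v ∉ S}).Adj ⟨(a, i), hi⟩ ⟨(b, i'), hmem⟩ := Or.inl h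
      exact hadj.reachable.trans (ih i' j hmem hj)
  obtain ⟨v0⟩ := hc.nonempty
  obtain ⟨i0, hi0⟩ := hfree v0
  have : Nonempty {v | v ∉ S} := ⟨⟨(v0, i0), hi0⟩⟩
  refine ⟨?_⟩
  rintro ⟨⟨u, i⟩, hi⟩ ⟨⟨v, j⟩, hj⟩
  obtain ⟨q⟩ := hc.preconnected u v
  exact key q i j hi hj

/-- For all `k` and `N` and all `ε > 0` there is a `k`-connected graph `G` with
`Γ_b(G) + N ≤ α_bnr(G)` and `(3/2 - ε) Γ_b(G) < α_bnr(G)`. -/
theorem result (k N : ℕ) (ε : ℝ) (hε : 0 < ε) :
    ∃ (V : Type) (_ : Fintype V) (G : SimpleGraph V), KConnected k G ∧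
      Gammab G + N ≤ alphaBnr G ∧ (3 / 2 - ε) * (Gammab G : ℝ) < (alphaBnr G : ℝ) := by
  obtain ⟨n, hn⟩ := exists_nat_gt (30 / ε)
  have hn1 : 30 < ε * n := by
    rw [div_lt_iff₀ hε] at hn
    linarith
  set m := n + N + 21 with hm
  have hm0 : 0 < m := by omega
  have ht : 0 < k + 1 := by omega
  have hc := GG_connected m hm0
  have hb : 3 * m ≤ alphaBnr (blow (GG m) (k + 1)) :=
    le_trans (alpha_lower m hm0) (alpha_blow _ (k + 1) hc ht)
  have hg : Gammab (blow (GG m) (k + 1)) ≤ 2 * m + 20 :=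
    le_trans (Gammab_blow _ (k + 1) hc ht) (gamma_upper m hm0)
  refine ⟨_, inferInstance, blow (GG m) (k + 1), ⟨?_, ?_⟩, by omega, ?_⟩
  · rw [Fintype.card_prod, Fintype.card_fin]
    have : 1 < Fintype.card (Vx m) := Fintype.one_lt_card
    nlinarith
  · intro S hS
    exact blow_kconn hc (k + 1) S (by omega)
  · have hb' : (3 * m : ℝ) ≤ alphaBnr (blow (GG m) (k + 1)) := by exact_mod_cast hb
    have hc' : (Gammab (blow (GG m) (k + 1)) : ℝ) ≤ 2 * m + 20 := by exact_mod_cast hg
    have hmn : (n : ℝ) ≤ m := by exact_mod_cast (by omega : n ≤ m)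
    have hmR : (0 : ℝ) < m := by exact_mod_cast hm0
    have hG0 : (0 : ℝ) ≤ Gammab (blow (GG m) (k + 1)) := Nat.cast_nonneg _
    have hεm : 30 < ε * m := lt_of_lt_of_le hn1 (mul_le_mul_of_nonneg_left hmn hε.le)
    by_cases hcase : 3 / 2 - ε ≤ 0
    · have : (3 / 2 - ε) * (Gammab (blow (GG m) (k + 1)) : ℝ) ≤ 0 :=
        mul_nonpos_of_nonpos_of_nonneg hcase hG0
      linarith
    · push Not at hcase
      have : (3 / 2 - ε) * (Gammab (blow (GG m) (k + 1)) : ℝ) ≤ (3 / 2 - ε) * (2 * m + 20) :=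
        mul_le_mul_of_nonneg_left hc' hcase.le
      nlinarith

end Pool.Agent.Results.MP_20154b_co.KConnectedRatio
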